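import Pool.Agent.Y202.RZ.Ext

/-!
# Project RZ, part GD2: the measure of the good base data
-/

set_option autoImplicit false

namespace Pool.Agent.Y202.RZ

open Finset Pool.Agent.W262.RK Pool.Agent.W307.RT Pool.Agent.W307.RS Pool.Agent.W307.SE
  Pool.Agent.W307.FK Pool.Agent.Y667.RP Pool.Agent.Y667.RZ Pool.Agent.Y678.RP

theorem sym_hyp_gen {c : ℝ} {r : ℕ} {Y : ℕ → ℕ} {M : ℕ} {S : Set (ℤ × ℤ)}
    (hsq : Squarefree M) (hodd : Odd M)
    (hS : ∀ w ∈ S, Squarefree w.1 ∧ Squarefree w.2 ∧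
      (∀ q : ℕ, q.Prime → (q : ℤ) ∣ w.1 → q ∣ M) ∧
      (∀ q : ℕ, q.Prime → (q : ℤ) ∣ w.2 → q ∣ 2 * M))
    (hY : ∀ i < r, M ^ 4 ≤ Y i) (hB : ∀ i < r, ∀ f ∈ SB c (Y i), ¬ f ∣ M) :
    SymH c Y r S := by
  intro w hw D hD hD1 i hi
  obtain ⟨hw1, hw2, hw3, hw4⟩ := hS w hw
  have hform : ∃ f : ℕ, f ∣ M ∧ (D = f ∨ D = -f ∨ D = 2 * f ∨ D = -(2 * f)) := by
    rcases hD with rfl | rfl
    · exact sym_form hsq.ne_zero hw1 fun q hq hqd => Dvd.dvd.mul_left (hw3 q hq hqd) 2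
    · exact sym_form hsq.ne_zero hw2 hw4
  obtain ⟨f, hf, hform⟩ := hform
  by_contra hcon
  push Not at hcon
  have hfb : Bad c (Y i) f := ⟨D, hform, hD1, hcon⟩
  refine hB i hi f (mem_SB (hodd.of_dvd_nat hf) (hsq.squarefree_of_dvd hf) ?_ hfb) hf
  refine le_trans ?_ (hY i hi)
  exact Nat.pow_le_pow_left (Nat.le_of_dvd (Nat.pos_of_ne_zero hsq.ne_zero) hf) 4

theorem sqf17 {m : ℕ} (hsq : Squarefree m) (h17 : ¬ 17 ∣ m) : Squarefree (17 * m) := by
  refine (Nat.squarefree_mul ((Nat.Prime.coprime_iff_not_dvd (by norm_num)).2 h17)).2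
    ⟨(by norm_num : Nat.Prime 17).prime.squarefree, hsq⟩

theorem sym_hyp2 {c : ℝ} {r : ℕ} {Y : ℕ → ℕ} {s : Fin 3 → ℕ} {E : Finset ℕ}
    (hsq : Squarefree (∏ j, s j)) (hodd : Odd (∏ j, s j)) (h17 : ¬ 17 ∣ ∏ j, s j)
    (hY : ∀ i < r, (17 * ∏ j, s j) ^ 4 ≤ Y i)
    (hB : ∀ i < r, ∀ f ∈ SB c (Y i), ¬ f ∣ 17 * ∏ j, s j) :
    SymH c Y r (V0 s E) ∧ SymH c Y r (V17 s E) := by
  have h1 := sqf17 hsq h17
  have h2 : Odd (17 * ∏ j, s j) := Odd.mul (by decide) hodd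
  refine ⟨sym_hyp_gen h1 h2 ?_ hY hB, sym_hyp_gen h1 h2 ?_ hY hB⟩
  · rintro w ⟨hw1, hw2, -, -, hw3, hw4, -⟩
    refine ⟨hw1, hw2, fun q hq hqd => Dvd.dvd.mul_left (hw3 q hq hqd) 17, fun q hq hqd => ?_⟩
    have := hw4 q hq hqd
    rw [show 2 * (17 * ∏ j, s j) = 17 * (2 * ∏ j, s j) by ring]
    exact Dvd.dvd.mul_left this 17
  · rintro w ⟨hw1, hw2, -, -, hw3, hw4, -⟩
    exact ⟨hw1, hw2, hw3, hw4⟩

/-- the good base data -/
def GB2 (c : ℝ) (R u : ℕ) (Y : ℕ → ℕ) (y : ℕ) (s : Fin 3 → ℕ) (E : Finset ℕ) : Prop :=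
  ((V0 s E).ncard ≤ 2 ^ R ∧ (V17 s E).ncard ≤ 2 ^ R) ∧ (∀ j, (s j : ℝ) ≤ (y : ℝ) ^ (u : ℝ)) ∧
    ∀ i < 2 * R, ∀ f ∈ SB c (Y i), ¬ f ∣ 17 * ∏ j, s j

theorem tw_tw {m : ℕ} {E : Finset ℕ} (hE : E ⊆ m.primeFactors) : tw m (tw m E) = E := by
  ext p
  unfold tw
  simp only [mem_filter]
  constructor
  · rintro ⟨h1, h2⟩
    by_contra h3
    apply h2
    constructor
    · rintro ⟨-, h4⟩
      by_contra h5
      exact h4 ⟨fun h => (h3 h).elim, fun h => (h5 h).elim⟩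
    · intro h4
      exact ⟨h1, fun h5 => h3 (h5.2 h4)⟩
  · intro h1
    refine ⟨hE h1, ?_⟩
    rintro h2
    by_cases h4 : jacobiSym 17 p = -1
    · exact (h2.2 h4).2 ⟨fun _ => h4, fun _ => h1⟩
    · exact h4 (h2.1 ⟨hE h1, fun h5 => h4 (h5.1 h1)⟩)

theorem tw_sub (m : ℕ) (E : Finset ℕ) : tw m E ⊆ m.primeFactors := Finset.filter_subset _ _

theorem sum_tw (m : ℕ) (g : Finset ℕ → ℝ) :
    ∑ E ∈ m.primeFactors.powerset, g (tw m E) = ∑ E ∈ m.primeFactors.powerset, g E := by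
  refine Finset.sum_nbij' (fun E => tw m E) (fun E => tw m E) ?_ ?_ ?_ ?_ ?_
  · intro E _
    exact mem_powerset.2 (tw_sub m E)
  · intro E _
    exact mem_powerset.2 (tw_sub m E)
  · intro E hE
    exact tw_tw (mem_powerset.1 hE)
  · intro E hE
    exact tw_tw (mem_powerset.1 hE)
  · intro E _
    rfl

open Classical in
theorem base_pt (hV : St_V0N) (hV17 : St_V17N) {y : ℕ} {R u : ℕ} {Y : ℕ → ℕ} {c : ℝ}
    {s : Fin 3 → ℕ}
    (hsq : Squarefree (∏ j, s j)) (hodd : Odd (∏ j, s j)) (h17 : ¬ 17 ∣ ∏ j, s j) :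
    ∏ j, 1 / (s j : ℝ) ≤
      mu s * (((∏ j, s j).primeFactors.powerset.filter (fun E => GB2 c R u Y y s E)).card : ℝ) +
      20 / 2 ^ R * (mu s * ∑ E ∈ (∏ j, s j).primeFactors.powerset,
        (NL (∏ j, s j) (LF s E) : ℝ)) +
      (if ∃ j, (y : ℝ) ^ (u : ℝ) < s j then ∏ j, 1 / (s j : ℝ) else 0) +
      ∑ i ∈ range (2 * R), ∑ f ∈ SB c (Y i),
        (if f ∣ 17 * ∏ j, s j then ∏ j, 1 / (s j : ℝ) else 0) := by
  have hW : 0 ≤ ∏ j, 1 / (s j : ℝ) := by positivity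
  have hmu := mu_nonneg s
  have t1 : 0 ≤ mu s * (((∏ j, s j).primeFactors.powerset.filter
      (fun E => GB2 c R u Y y s E)).card : ℝ) := by positivity
  have t2 : 0 ≤ 20 / 2 ^ R * (mu s * ∑ E ∈ (∏ j, s j).primeFactors.powerset,
        (NL (∏ j, s j) (LF s E) : ℝ)) := by positivity
  have t3 : 0 ≤ (if ∃ j, (y : ℝ) ^ (u : ℝ) < s j then ∏ j, 1 / (s j : ℝ) else 0) := by
    split_ifs
    · exact hW
    · exact le_rfl
  have t4' : ∀ i ∈ range (2 * R), ∀ f ∈ SB c (Y i),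
      0 ≤ (if f ∣ 17 * ∏ j, s j then ∏ j, 1 / (s j : ℝ) else 0) := by
    intro i _ f _
    split_ifs
    · exact hW
    · exact le_rfl
  have t4 : 0 ≤ ∑ i ∈ range (2 * R), ∑ f ∈ SB c (Y i),
      (if f ∣ 17 * ∏ j, s j then ∏ j, 1 / (s j : ℝ) else 0) :=
    Finset.sum_nonneg fun i hi => Finset.sum_nonneg fun f hf => t4' i hi f hf
  by_cases hb : ∃ j, (y : ℝ) ^ (u : ℝ) < s j
  · rw [if_pos hb] at t3 ⊢
    linarith
  by_cases hf : ∃ i < 2 * R, ∃ f ∈ SB c (Y i), f ∣ 17 * ∏ j, s j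
  · obtain ⟨i, hi, f, hf, hfd⟩ := hf
    have h1 : ∏ j, 1 / (s j : ℝ) ≤ ∑ i ∈ range (2 * R), ∑ f ∈ SB c (Y i),
        (if f ∣ 17 * ∏ j, s j then ∏ j, 1 / (s j : ℝ) else 0) := by
      calc ∏ j, 1 / (s j : ℝ) = if f ∣ 17 * ∏ j, s j then ∏ j, 1 / (s j : ℝ) else 0 := by
            rw [if_pos hfd]
        _ ≤ ∑ f ∈ SB c (Y i), (if f ∣ 17 * ∏ j, s j then ∏ j, 1 / (s j : ℝ) else 0) :=
            Finset.single_le_sum (f := fun f => if f ∣ 17 * ∏ j, s j then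
                ∏ j, 1 / (s j : ℝ) else 0)
              (fun f hf => t4' i (mem_range.2 hi) f hf) hf
        _ ≤ _ := Finset.single_le_sum (f := fun i => ∑ f ∈ SB c (Y i),
              (if f ∣ 17 * ∏ j, s j then ∏ j, 1 / (s j : ℝ) else 0))
              (fun i hi => Finset.sum_nonneg fun f hf => t4' i hi f hf) (mem_range.2 hi)
    linarith
  -- the main case
  push Not at hb hf
  set PW := (∏ j, s j).primeFactors.powerset with hPW
  have hcard : (PW.card : ℝ) = 2 ^ (∏ j, s j).primeFactors.card := by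
    rw [hPW, Finset.card_powerset]
    push_cast
    rfl
  have h1 : (PW.card : ℝ) ≤ ((PW.filter (fun E => GB2 c R u Y y s E)).card : ℝ) +
      ((PW.filter (fun E => ¬ GB2 c R u Y y s E)).card : ℝ) := by
    rw [← Nat.cast_add, Finset.card_filter_add_card_filter_not]
  have h2 : 2 ^ R * ((PW.filter (fun E => ¬ GB2 c R u Y y s E)).card : ℝ) ≤
      20 * ∑ E ∈ PW, (NL (∏ j, s j) (LF s E) : ℝ) := by
    calc 2 ^ R * ((PW.filter (fun E => ¬ GB2 c R u Y y s E)).card : ℝ)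
        = ∑ E ∈ PW.filter (fun E => ¬ GB2 c R u Y y s E), (2 : ℝ) ^ R := by
          rw [Finset.sum_const, nsmul_eq_mul, mul_comm]
      _ ≤ ∑ E ∈ PW.filter (fun E => ¬ GB2 c R u Y y s E),
            (4 * (NL (∏ j, s j) (LF s E) : ℝ) +
              16 * (NL (∏ j, s j) (LF s (tw (∏ j, s j) E)) : ℝ)) := by
          refine Finset.sum_le_sum fun E hE => ?_
          have hE' := (mem_filter.1 hE).2
          have h3 : 2 ^ R < (V0 s E).ncard ∨ 2 ^ R < (V17 s E).ncard := by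
            by_contra hcon
            push Not at hcon
            exact hE' ⟨hcon, fun j => hb j, fun i hi f hf' => hf i hi f hf'⟩
          have h4 := (hV s E hsq hodd).2
          have h4' := (hV17 s E hsq hodd h17).2
          have h5 : 2 ^ R ≤ 4 * NL (∏ j, s j) (LF s E) +
              16 * NL (∏ j, s j) (LF s (tw (∏ j, s j) E)) := by
            rcases h3 with h3 | h3
            · omega
            · omega
          exact_mod_cast h5
      _ ≤ ∑ E ∈ PW, (4 * (NL (∏ j, s j) (LF s E) : ℝ) +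
              16 * (NL (∏ j, s j) (LF s (tw (∏ j, s j) E)) : ℝ)) := by
          refine Finset.sum_le_sum_of_subset_of_nonneg (Finset.filter_subset _ _)
            fun _ _ _ => by positivity
      _ = _ := by
          rw [Finset.sum_add_distrib, ← Finset.mul_sum, ← Finset.mul_sum,
            sum_tw (∏ j, s j) (fun E => (NL (∏ j, s j) (LF s E) : ℝ))]
          ring
  have h3 : ((PW.filter (fun E => ¬ GB2 c R u Y y s E)).card : ℝ) ≤
      20 / 2 ^ R * ∑ E ∈ PW, (NL (∏ j, s j) (LF s E) : ℝ) := by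
    have h2R : (0 : ℝ) < 2 ^ R := by positivity
    rw [div_mul_eq_mul_div, le_div_iff₀ h2R]
    linarith
  have h4 : ∏ j, 1 / (s j : ℝ) ≤ mu s * ((PW.filter (fun E => GB2 c R u Y y s E)).card : ℝ) +
      20 / 2 ^ R * (mu s * ∑ E ∈ PW, (NL (∏ j, s j) (LF s E) : ℝ)) := by
    rw [← mu_pow, ← hcard]
    calc mu s * (PW.card : ℝ) ≤ mu s * (((PW.filter (fun E => GB2 c R u Y y s E)).card : ℝ) +
          20 / 2 ^ R * ∑ E ∈ PW, (NL (∏ j, s j) (LF s E) : ℝ)) := by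
          refine mul_le_mul_of_nonneg_left ?_ hmu
          linarith
      _ = _ := by ring
  linarith

theorem not17 {z y : ℕ} (hz : 17 ≤ z) {s : Fin 3 → ℕ} (hs : s ∈ Tup (Fin 3) z y) :
    ¬ 17 ∣ ∏ j, s j := by
  intro h
  have := ((mem_Tup.1 hs).2 17 (by norm_num) h).1
  omega

theorem f17 {f : ℕ} (hf : Squarefree f) {m : ℕ} (h17 : ¬ 17 ∣ m) :
    f ∣ 17 * m ↔ (if 17 ∣ f then f / 17 else f) ∣ m := by
  split_ifs with h
  · obtain ⟨g, rfl⟩ := h
    rw [Nat.mul_div_cancel_left _ (by norm_num : 0 < 17)]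
    exact Nat.mul_dvd_mul_iff_left (by norm_num)
  · exact (Nat.Coprime.dvd_mul_left
      (Nat.coprime_comm.1 ((Nat.Prime.coprime_iff_not_dvd (by norm_num)).2 h)))

open Classical in
theorem h5_17 {z y : ℕ} (hz : 17 ≤ z) {C L : ℝ} (hC : 0 ≤ C) (hL : 0 ≤ L)
    (h5 : ∀ f : ℕ, 1 ≤ f → ∑ s ∈ (Tup (Fin 3) z y).filter (fun s => f ∣ ∏ j, s j),
      ∏ j, 1 / (s j : ℝ) ≤ C * ((3 : ℝ) ^ f.primeFactors.card / f) * L) {f : ℕ}
    (hf : Squarefree f) :
    ∑ s ∈ (Tup (Fin 3) z y).filter (fun s => f ∣ 17 * ∏ j, s j),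
      ∏ j, 1 / (s j : ℝ) ≤ 17 * C * ((3 : ℝ) ^ f.primeFactors.card / f) * L := by
  have h1 : (Tup (Fin 3) z y).filter (fun s => f ∣ 17 * ∏ j, s j) =
      (Tup (Fin 3) z y).filter (fun s => (if 17 ∣ f then f / 17 else f) ∣ ∏ j, s j) := by
    refine Finset.filter_congr fun s hs => ?_
    exact f17 hf (not17 hz hs)
  rw [h1]
  have hf0 : 0 < f := Nat.pos_of_ne_zero hf.ne_zero
  have hg : 1 ≤ (if 17 ∣ f then f / 17 else f) := by
    split_ifs with h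
    · exact Nat.div_pos (Nat.le_of_dvd hf0 h) (by norm_num)
    · exact hf0
  refine (h5 _ hg).trans ?_
  refine mul_le_mul_of_nonneg_right ?_ hL
  have key : (3 : ℝ) ^ ((if 17 ∣ f then f / 17 else f) : ℕ).primeFactors.card /
      ((if 17 ∣ f then f / 17 else f : ℕ) : ℝ) ≤ 17 * ((3 : ℝ) ^ f.primeFactors.card / f) := by
    split_ifs with h
    · obtain ⟨g, rfl⟩ := h
      rw [Nat.mul_div_cancel_left _ (by norm_num : 0 < 17)]
      have hg0 : 0 < g := by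
        rcases Nat.eq_zero_or_pos g with rfl | h
        · simp at hf0
        · exact h
      have e1 : g.primeFactors.card ≤ (17 * g).primeFactors.card :=
        Finset.card_le_card (Nat.primeFactors_mono (Dvd.intro_left 17 rfl) (by omega))
      have e2 : (3 : ℝ) ^ g.primeFactors.card ≤ 3 ^ (17 * g).primeFactors.card :=
        pow_le_pow_right₀ (by norm_num) e1
      have e3 : (17 : ℝ) * (3 ^ (17 * g).primeFactors.card / ((17 * g : ℕ) : ℝ)) =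
          3 ^ (17 * g).primeFactors.card / g := by
        have : (g : ℝ) ≠ 0 := by exact_mod_cast hg0.ne'
        push_cast
        field_simp
      rw [e3]
      exact div_le_div_of_nonneg_right e2 (by positivity)
    · have : 0 ≤ (3 : ℝ) ^ f.primeFactors.card / f := by positivity
      linarith
  calc C * ((3 : ℝ) ^ ((if 17 ∣ f then f / 17 else f) : ℕ).primeFactors.card /
      ((if 17 ∣ f then f / 17 else f : ℕ) : ℝ))
      ≤ C * (17 * ((3 : ℝ) ^ f.primeFactors.card / f)) := mul_le_mul_of_nonneg_left key hC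
    _ = _ := by ring

open Classical in
theorem base (hV : St_V0N) (hV17 : St_V17N) {z y : ℕ} (hz : 17 ≤ z) {c1 C η L c : ℝ} {R u : ℕ}
    {Y : ℕ → ℕ}
    (hC : 0 ≤ C) (hL : 0 ≤ L)
    (h1 : c1 * L ≤ ∑ s ∈ Tup (Fin 3) z y, ∏ j, 1 / (s j : ℝ))
    (h3 : ∑ s ∈ (Tup (Fin 3) z y).filter (fun s => ∃ j, (y : ℝ) ^ (u : ℝ) < s j),
      ∏ j, 1 / (s j : ℝ) ≤ c1 / 8 * L)
    (h4 : ∑ s ∈ Tup (Fin 3) z y, mu s * ∑ E ∈ (∏ j, s j).primeFactors.powerset,
      (NL (∏ j, s j) (LF s E) : ℝ) ≤ C * L)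
    (h5 : ∀ f : ℕ, 1 ≤ f → ∑ s ∈ (Tup (Fin 3) z y).filter (fun s => f ∣ ∏ j, s j),
      ∏ j, 1 / (s j : ℝ) ≤ C * ((3 : ℝ) ^ f.primeFactors.card / f) * L)
    (hR : 20 / 2 ^ R * C ≤ c1 / 8)
    (hη : ∀ i < 2 * R, ∑ f ∈ SB c (Y i), (3 : ℝ) ^ f.primeFactors.card / f ≤ η)
    (hη2 : (2 * R : ℕ) * (17 * C * η) ≤ c1 / 4) :
    c1 / 2 * L ≤ ∑ s ∈ Tup (Fin 3) z y, mu s *
      (((∏ j, s j).primeFactors.powerset.filter (fun E => GB2 c R u Y y s E)).card : ℝ) := by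
  have hodd : ∀ s ∈ Tup (Fin 3) z y, Odd (∏ j, s j) := by
    intro s hs
    rw [mem_Tup] at hs
    rw [← Nat.not_even_iff_odd, even_iff_two_dvd]
    intro h2
    have := (hs.2 2 Nat.prime_two h2).1
    omega
  have hsum := Finset.sum_le_sum fun s hs =>
    base_pt hV hV17 (y := y) (R := R) (u := u) (Y := Y) (c := c) ((mem_Tup.1 hs).1) (hodd s hs)
      (not17 hz hs)
  rw [Finset.sum_add_distrib, Finset.sum_add_distrib, Finset.sum_add_distrib,
    ← Finset.mul_sum, ← Finset.sum_filter, Finset.sum_comm] at hsum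
  have e4 : ∑ i ∈ range (2 * R), ∑ s ∈ Tup (Fin 3) z y, ∑ f ∈ SB c (Y i),
      (if f ∣ 17 * ∏ j, s j then ∏ j, 1 / (s j : ℝ) else 0) ≤
        (2 * R : ℕ) * (17 * C * η) * L := by
    calc _ ≤ ∑ i ∈ range (2 * R), 17 * C * η * L := by
          refine Finset.sum_le_sum fun i hi => ?_
          rw [Finset.sum_comm]
          calc _ ≤ ∑ f ∈ SB c (Y i), 17 * C * ((3 : ℝ) ^ f.primeFactors.card / f) * L := by
                refine Finset.sum_le_sum fun f hf => ?_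
                rw [← Finset.sum_filter]
                exact h5_17 hz hC hL h5 (SB_prop hf).2.1
            _ = 17 * C * (∑ f ∈ SB c (Y i), (3 : ℝ) ^ f.primeFactors.card / f) * L := by
                rw [Finset.mul_sum, Finset.sum_mul]
            _ ≤ 17 * C * η * L := by
                refine mul_le_mul_of_nonneg_right ?_ hL
                exact mul_le_mul_of_nonneg_left (hη i (mem_range.1 hi)) (by positivity)
      _ = _ := by
          rw [Finset.sum_const, card_range, nsmul_eq_mul]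
          ring
  have e2 : 20 / 2 ^ R * ∑ s ∈ Tup (Fin 3) z y, mu s * ∑ E ∈ (∏ j, s j).primeFactors.powerset,
      (NL (∏ j, s j) (LF s E) : ℝ) ≤ c1 / 8 * L := by
    calc _ ≤ 20 / 2 ^ R * (C * L) := mul_le_mul_of_nonneg_left h4 (by positivity)
      _ = (20 / 2 ^ R * C) * L := by ring
      _ ≤ _ := mul_le_mul_of_nonneg_right hR hL
  have e5 : (2 * R : ℕ) * (17 * C * η) * L ≤ c1 / 4 * L := mul_le_mul_of_nonneg_right hη2 hL
  have e6 : c1 * L = c1 / 2 * L + c1 / 8 * L + c1 / 8 * L + c1 / 4 * L := by ring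
  linarith

end Pool.Agent.Y202.RZ
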