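import Pool.Agent.Y678.RP.GD
import Pool.Agent.Y667.RZ.Stm

/-!
# Project RZ, part GD2: extension of the data by killing primes
-/

set_option autoImplicit false

namespace Pool.Agent.Y202.RZ

open Finset Pool.Agent.W262.RK Pool.Agent.W307.RT Pool.Agent.W307.RS Pool.Agent.W307.SE
  Pool.Agent.W307.FK Pool.Agent.Y667.RP Pool.Agent.Y667.RZ Pool.Agent.Y678.RP

theorem one_mem_V17 (s : Fin 3 → ℕ) (E : Finset ℕ) : ((1 : ℤ), (1 : ℤ)) ∈ V17 s E := by
  have hp1 : ∀ q : ℕ, q.Prime → ¬ ((q : ℤ) ∣ 1) := by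
    intro q hq h
    have : q ∣ 1 := by exact_mod_cast h
    exact hq.one_lt.ne' (Nat.dvd_one.1 this)
  refine ⟨squarefree_one, squarefree_one, one_pos, by norm_num, fun q hq h => (hp1 q hq h).elim,
    fun q hq h => (hp1 q hq h).elim, ?_⟩
  intro p hp
  have hp' := (Nat.mem_primeFactors.1 hp).1
  have h1 : dv p 1 = false := by
    unfold dv
    exact decide_eq_false (hp1 p hp')
  have h2 : sgn p 1 = false := by
    unfold sgn sg0
    simp
  show L17 s E p (dv p 1) (dv p 1) (sgn p 1) (sgn p 1)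
  rw [h1, h2]
  unfold L17
  split_ifs with h17
  · exact ⟨rfl, rfl⟩
  · intro j hj
    show LR j _ false false false false
    unfold LR
    fin_cases j <;> simp

/-- the property of the extensions -/
def ExtP2 (Y : ℕ → ℕ) (r : ℕ) (s : Fin 3 → ℕ) (E : Finset ℕ) (t : (Fin 3 → ℕ) × Finset ℕ) :
    Prop :=
  (V0 t.1 t.2 = {(1, 1)} ∧ V17 t.1 t.2 = {(1, 1)}) ∧ Squarefree (∏ j, t.1 j) ∧
    Odd (∏ j, t.1 j) ∧
    t.2 ⊆ (∏ j, t.1 j).primeFactors ∧ (∀ j, s j ∣ t.1 j) ∧
    (∀ p ∈ (∏ j, t.1 j).primeFactors, p ∣ ∏ j, s j ∨ ∃ i < r, p ∈ II Y i) ∧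
    t.2 ∩ (∏ j, s j).primeFactors = E ∧ ∏ j, t.1 j ≤ (∏ j, s j) * ∏ i ∈ range r, Y i ^ 2

theorem single_of_ncard {S : Set (ℤ × ℤ)} (hf : S.Finite) (h1 : ((1 : ℤ), (1 : ℤ)) ∈ S)
    (hn : S.ncard ≤ 1) : S = {(1, 1)} := by
  have h2 := (Set.ncard_le_one hf).1 hn
  exact Set.Subset.antisymm (fun w hw => h2 w hw _ h1) (Set.singleton_subset_iff.2 h1)

theorem exists_ne {S : Set (ℤ × ℤ)} (h1 : ((1 : ℤ), (1 : ℤ)) ∈ S) (hn : S ≠ {(1, 1)}) :
    ∃ w ∈ S, w ≠ (1, 1) := by
  by_contra hcon
  push Not at hcon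
  exact hn (Set.Subset.antisymm (fun w hw => hcon w hw) (Set.singleton_subset_iff.2 h1))

/-- a class `j` and a symbol for a nontrivial class `w` -/
theorem exists_sym {w : ℤ × ℤ} (hw1 : w ≠ (1, 1)) :
    ∃ (j : Fin 3) (D : ℤ), (D = w.1 ∨ D = w.2) ∧ D ≠ 1 ∧
      ∀ p : ℕ, p.Prime → jacobiSym D p = -1 → phi j (sgn p w.1) (sgn p w.2) = true := by
  by_cases h2 : w.2 = 1
  · refine ⟨2, w.1, Or.inl rfl, ?_, ?_⟩
    · intro h1
      exact hw1 (Prod.ext h1 h2)
    · intro p hp h
      unfold phi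
      simp [sgn_true hp h]
  · refine ⟨1, w.2, Or.inr rfl, h2, ?_⟩
    intro p hp h
    unfold phi
    simp [sgn_true hp h]

/-- the symbol hypothesis -/
def SymH (c : ℝ) (Y : ℕ → ℕ) (r : ℕ) (S : Set (ℤ × ℤ)) : Prop :=
  ∀ w ∈ S, ∀ D : ℤ, (D = w.1 ∨ D = w.2) → D ≠ 1 → ∀ i < r,
    c ≤ ∑ p ∈ (Ioc (Y i) (Y i ^ 2)).filter (fun p : ℕ => p.Prime ∧ jacobiSym D p = -1),
      (1 : ℝ) / p

theorem SymH.mono {c : ℝ} {Y : ℕ → ℕ} {r r' : ℕ} {S S' : Set (ℤ × ℤ)} (h : SymH c Y r S)
    (hr : r' ≤ r) (hS : S' ⊆ S) : SymH c Y r' S' :=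
  fun w hw D hD hD1 i hi => h w (hS hw) D hD hD1 i (lt_of_lt_of_le hi hr)

/-- the step: in all cases there are a class `j` and a symbol `D` such that for every prime `p` with
`(D / p) = -1` there is a sign with the product of the orders at least halved. -/
theorem step (hK : St_KILL) (hV : St_V0N) (hK17 : St_KILL17) (hV17 : St_V17N) (hNG : St_NG)
    {c : ℝ} {Y : ℕ → ℕ} {r : ℕ} {s : Fin 3 → ℕ} {E : Finset ℕ} (hsq : Squarefree (∏ j, s j))
    (hodd : Odd (∏ j, s j)) (h17 : ¬ 17 ∣ ∏ j, s j) (hE : E ⊆ (∏ j, s j).primeFactors)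
    (hne : ¬ (V0 s E = {(1, 1)} ∧ V17 s E = {(1, 1)}))
    (hS : SymH c Y (r + 1) (V0 s E)) (hS17 : SymH c Y (r + 1) (V17 s E)) :
    ∃ (j : Fin 3) (D : ℤ),
      (c ≤ ∑ p ∈ (Ioc (Y r) (Y r ^ 2)).filter (fun p : ℕ => p.Prime ∧ jacobiSym D p = -1),
        (1 : ℝ) / p) ∧
      ∀ p : ℕ, p.Prime → p ≠ 2 → p ≠ 17 → ¬ p ∣ ∏ j, s j → jacobiSym D p = -1 →
        ∃ E' : Finset ℕ, (E' = E ∨ E' = insert p E) ∧
          V0 (Function.update s j (s j * p)) E' ⊆ V0 s E ∧
          V17 (Function.update s j (s j * p)) E' ⊆ V17 s E ∧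
          2 * ((V0 (Function.update s j (s j * p)) E').ncard *
            (V17 (Function.update s j (s j * p)) E').ncard) ≤
            (V0 s E).ncard * (V17 s E).ncard := by
  have hEE : ∀ p : ℕ, ¬ p ∣ ∏ j, s j → ∀ E' : Finset ℕ, (E' = E ∨ E' = insert p E) →
      E' ∩ (∏ j, s j).primeFactors = E ∩ (∏ j, s j).primeFactors := by
    rintro p hp E' (rfl | rfl)
    · rfl
    · rw [Finset.insert_inter_of_notMem]
      exact fun h => hp (Nat.dvd_of_mem_primeFactors h)
  have hf0 := (hV s E hsq hodd).1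
  have hf17 := (hV17 s E hsq hodd h17).1
  by_cases h0 : V0 s E = {(1, 1)}
  · have h1 : V17 s E ≠ {(1, 1)} := fun h => hne ⟨h0, h⟩
    obtain ⟨w, hw, hw1⟩ := exists_ne (one_mem_V17 s E) h1
    obtain ⟨j, D, hD, hD1, hphi⟩ := exists_sym hw1
    refine ⟨j, D, hS17 w hw D hD hD1 r (Nat.lt_succ_self r), ?_⟩
    intro p hp hp2 hp17 hps hjac
    obtain ⟨E', hE', hsub⟩ : ∃ E' : Finset ℕ, (E' = E ∨ E' = insert p E) ∧
        V0 (Function.update s j (s j * p)) E' ⊆ V0 s E := by
      rcases (hNG s E p j hsq hodd h17 hE hp hp2 hp17 hps).1 with h | h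
      · exact ⟨E, Or.inl rfl, h⟩
      · exact ⟨insert p E, Or.inr rfl, h⟩
    obtain ⟨k1, k2⟩ := hK17 s E E' w p j hsq hodd h17 hw hp hp2 hp17 hps (hEE p hps E' hE')
      (hphi p hp hjac)
    refine ⟨E', hE', hsub, k1, ?_⟩
    have h3 := Set.ncard_le_ncard hsub hf0
    calc _ = (V0 (Function.update s j (s j * p)) E').ncard *
          (2 * (V17 (Function.update s j (s j * p)) E').ncard) := by ring
      _ ≤ _ := Nat.mul_le_mul h3 k2
  · obtain ⟨w, hw, hw1⟩ := exists_ne (one_mem_V0 s E) h0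
    obtain ⟨j, D, hD, hD1, hphi⟩ := exists_sym hw1
    refine ⟨j, D, hS w hw D hD hD1 r (Nat.lt_succ_self r), ?_⟩
    intro p hp hp2 hp17 hps hjac
    obtain ⟨E', hE', hsub⟩ : ∃ E' : Finset ℕ, (E' = E ∨ E' = insert p E) ∧
        V17 (Function.update s j (s j * p)) E' ⊆ V17 s E := by
      rcases (hNG s E p j hsq hodd h17 hE hp hp2 hp17 hps).2.1 with h | h
      · exact ⟨E, Or.inl rfl, h⟩
      · exact ⟨insert p E, Or.inr rfl, h⟩
    obtain ⟨k1, k2⟩ := hK s E E' w p j hsq hodd hw hp hp2 hps (hEE p hps E' hE')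
      (hphi p hp hjac)
    refine ⟨E', hE', k1, hsub, ?_⟩
    have h3 := Set.ncard_le_ncard hsub hf17
    calc _ = (2 * (V0 (Function.update s j (s j * p)) E').ncard) *
          (V17 (Function.update s j (s j * p)) E').ncard := by ring
      _ ≤ _ := Nat.mul_le_mul k2 h3

theorem ext_data (hK : St_KILL) (hV : St_V0N) (hK17 : St_KILL17) (hV17 : St_V17N)
    (hNG : St_NG) {c : ℝ} (hc : 0 < c) (hc1 : c ≤ 1) (Y : ℕ → ℕ)
    (hY2 : ∀ i, 17 ≤ Y i) (hY : ∀ i j, i < j → Y i ^ 2 ≤ Y j) :
    ∀ (r : ℕ) (s : Fin 3 → ℕ) (E : Finset ℕ), Squarefree (∏ j, s j) → Odd (∏ j, s j) →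
      ¬ 17 ∣ ∏ j, s j →
      E ⊆ (∏ j, s j).primeFactors → (V0 s E).ncard * (V17 s E).ncard ≤ 2 ^ r →
      (∀ i < r, ∀ p ∈ II Y i, ¬ p ∣ ∏ j, s j) →
      SymH c Y r (V0 s E) → SymH c Y r (V17 s E) →
      ∃ Ω : Finset ((Fin 3 → ℕ) × Finset ℕ), (∀ t ∈ Ω, ExtP2 Y r s E t) ∧
        (c / 2) ^ r * mu s ≤ ∑ t ∈ Ω, mu t.1 := by
  classical
  have hc2 : 0 < c / 2 := by linarith
  have hc3 : c / 2 ≤ 1 := by linarith
  intro r
  induction r with
  | zero =>
    intro s E hsq hodd h17 hE hn _ _ _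
    obtain ⟨hf0, -⟩ := hV s E hsq hodd
    obtain ⟨hf17, -⟩ := hV17 s E hsq hodd h17
    have p0 : 0 < (V0 s E).ncard := (Set.ncard_pos hf0).2 ⟨_, one_mem_V0 s E⟩
    have p17 : 0 < (V17 s E).ncard := (Set.ncard_pos hf17).2 ⟨_, one_mem_V17 s E⟩
    rw [pow_zero] at hn
    have n0 : (V0 s E).ncard ≤ 1 := le_trans (Nat.le_mul_of_pos_right _ p17) hn
    have n17 : (V17 s E).ncard ≤ 1 := le_trans (Nat.le_mul_of_pos_left _ p0) hn
    refine ⟨{(s, E)}, ?_, ?_⟩
    · intro t ht
      rw [mem_singleton] at ht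
      subst ht
      exact ⟨⟨single_of_ncard hf0 (one_mem_V0 s E) n0,
        single_of_ncard hf17 (one_mem_V17 s E) n17⟩, hsq, hodd, hE, fun _ => dvd_rfl,
        fun p hp => Or.inl (Nat.dvd_of_mem_primeFactors hp), Finset.inter_eq_left.2 hE, by simp⟩
    · simp
  | succ r ih =>
    intro s E hsq hodd h17 hE hn hI hS hS17
    by_cases hV' : V0 s E = {(1, 1)} ∧ V17 s E = {(1, 1)}
    · refine ⟨{(s, E)}, ?_, ?_⟩
      · intro t ht
        rw [mem_singleton] at ht
        subst ht
        refine ⟨hV', hsq, hodd, hE, fun _ => dvd_rfl,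
          fun p hp => Or.inl (Nat.dvd_of_mem_primeFactors hp), Finset.inter_eq_left.2 hE, ?_⟩
        refine Nat.le_mul_of_pos_right _ (Finset.prod_pos fun i _ => ?_)
        have := hY2 i
        positivity
      · rw [sum_singleton]
        have := mu_nonneg s
        have h2 : (c / 2) ^ (r + 1) ≤ 1 := pow_le_one₀ hc2.le hc3
        nlinarith
    · -- a class to kill
      obtain ⟨j, D, hsum, hstep⟩ := step hK hV hK17 hV17 hNG hsq hodd h17 hE hV' hS hS17
      set P := (Ioc (Y r) (Y r ^ 2)).filter (fun p : ℕ => p.Prime ∧ jacobiSym D p = -1) with hP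
      have hs0 : ∏ j, s j ≠ 0 := hsq.ne_zero
      have hPp : ∀ p ∈ P, p.Prime ∧ p ≠ 2 ∧ (¬ p ∣ ∏ j, s j) ∧ p ∈ II Y r ∧ p ≤ Y r ^ 2 ∧
          jacobiSym D p = -1 ∧ p ≠ 17 := by
        intro p hp
        rw [hP, mem_filter, mem_Ioc] at hp
        have hpI : p ∈ II Y r := by
          unfold II
          rw [mem_filter, mem_Ioc]
          exact ⟨hp.1, hp.2.1⟩
        have h2 := hY2 r
        exact ⟨hp.2.1, by omega, hI r (Nat.lt_succ_self r) p hpI, hpI, hp.1.2, hp.2.2, by omega⟩
      have hch : ∀ p ∈ P, ∃ E' : Finset ℕ, (E' = E ∨ E' = insert p E) ∧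
          V0 (Function.update s j (s j * p)) E' ⊆ V0 s E ∧
          V17 (Function.update s j (s j * p)) E' ⊆ V17 s E ∧
          2 * ((V0 (Function.update s j (s j * p)) E').ncard *
            (V17 (Function.update s j (s j * p)) E').ncard) ≤
            (V0 s E).ncard * (V17 s E).ncard := by
        intro p hp
        obtain ⟨hpp, hp2, hps, hpI, hple, hjac, hp17⟩ := hPp p hp
        exact hstep p hpp hp2 hp17 hps hjac
      choose! EE hEE0 hEEa hEEb hEEc using hch
      have hEE1 : ∀ p ∈ P, EE p ∩ (∏ j, s j).primeFactors = E := by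
        intro p hp
        have hpn : p ∉ (∏ j, s j).primeFactors :=
          fun h => (hPp p hp).2.2.1 (Nat.dvd_of_mem_primeFactors h)
        rcases hEE0 p hp with h | h
        · rw [h]
          exact Finset.inter_eq_left.2 hE
        · rw [h, Finset.insert_inter_of_notMem hpn]
          exact Finset.inter_eq_left.2 hE
      have hOm : ∀ p ∈ P, ∃ Ω : Finset ((Fin 3 → ℕ) × Finset ℕ),
          (∀ t ∈ Ω, ExtP2 Y r (Function.update s j (s j * p)) (EE p) t) ∧
          (c / 2) ^ r * mu (Function.update s j (s j * p)) ≤ ∑ t ∈ Ω, mu t.1 := by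
        intro p hp
        obtain ⟨hpp, hp2, hps, hpI, hple, hjac, hp17⟩ := hPp p hp
        have hpr := prod_upd s j p
        apply ih
        · rw [hpr]
          exact (Nat.squarefree_mul ((Nat.coprime_comm.1 ((Nat.Prime.coprime_iff_not_dvd hpp).2 hps)))).2
            ⟨hsq, hpp.prime.squarefree⟩
        · rw [hpr]
          exact hodd.mul (hpp.odd_of_ne_two hp2)
        · rw [hpr]
          intro h
          rcases ((by norm_num : Nat.Prime 17).dvd_mul).1 h with h | h
          · exact h17 h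
          · exact hp17 ((Nat.prime_dvd_prime_iff_eq (by norm_num) hpp).1 h).symm
        · rw [hpr, pf_mul hs0 hpp]
          rcases hEE0 p hp with h | h
          · rw [h]
            exact hE.trans (Finset.subset_insert _ _)
          · rw [h]
            exact Finset.insert_subset_insert _ hE
        · have h1 := (hEEc p hp).trans hn
          rw [pow_succ] at h1
          omega
        · intro i hi q hq
          rw [hpr]
          intro hdvd
          have hqp : q.Prime := by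
            unfold II at hq
            exact (mem_filter.1 hq).2
          rcases (hqp.dvd_mul).1 hdvd with h | h
          · exact hI i (Nat.lt_succ_of_lt hi) q hq h
          · have : q = p := (Nat.prime_dvd_prime_iff_eq hqp hpp).1 h
            subst this
            exact II_disj hY hi hq hpI
        · exact hS.mono (Nat.le_succ r) (hEEa p hp)
        · exact hS17.mono (Nat.le_succ r) (hEEb p hp)
      choose! Om hOm1 hOm2 using hOm
      refine ⟨P.biUnion Om, ?_, ?_⟩
      · intro t ht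
        rw [mem_biUnion] at ht
        obtain ⟨p, hp, ht⟩ := ht
        obtain ⟨hpp, hp2, hps, hpI, hple, hjac, hp17⟩ := hPp p hp
        obtain ⟨h1, h2, h3, h4, h5, h6, h7, h8⟩ := hOm1 p hp t ht
        have hpr := prod_upd s j p
        rw [hpr] at h6 h7 h8
        refine ⟨h1, h2, h3, h4, ?_, ?_, ?_, ?_⟩
        · intro i
          refine dvd_trans ?_ (h5 i)
          by_cases hij : i = j
          · subst hij
            simp
          · rw [Function.update_of_ne hij]
        · intro q hq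
          have hqp := (Nat.mem_primeFactors.1 hq).1
          rcases h6 q hq with h | ⟨i, hi, h⟩
          · rcases (hqp.dvd_mul).1 h with h | h
            · exact Or.inl h
            · have : q = p := (Nat.prime_dvd_prime_iff_eq hqp hpp).1 h
              subst this
              exact Or.inr ⟨r, Nat.lt_succ_self r, hpI⟩
          · exact Or.inr ⟨i, Nat.lt_succ_of_lt hi, h⟩
        · have h9 : (∏ j, s j).primeFactors ⊆ ((∏ j, s j) * p).primeFactors := by
            rw [pf_mul hs0 hpp]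
            exact Finset.subset_insert _ _
          calc t.2 ∩ (∏ j, s j).primeFactors
              = t.2 ∩ (((∏ j, s j) * p).primeFactors ∩ (∏ j, s j).primeFactors) := by
                rw [Finset.inter_eq_right.2 h9]
            _ = (t.2 ∩ ((∏ j, s j) * p).primeFactors) ∩ (∏ j, s j).primeFactors := by
                rw [Finset.inter_assoc]
            _ = EE p ∩ (∏ j, s j).primeFactors := by rw [h7]
            _ = E := hEE1 p hp
        · refine h8.trans ?_
          rw [Finset.prod_range_succ, mul_assoc]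
          refine Nat.mul_le_mul_left _ ?_
          rw [mul_comm]
          exact Nat.mul_le_mul_left _ hple
      · rw [Finset.sum_biUnion]
        · calc (c / 2) ^ (r + 1) * mu s ≤ (c / 2) ^ r * mu s * ((∑ p ∈ P, (1 : ℝ) / p) / 2) := by
                rw [pow_succ]
                have h1 : 0 ≤ (c / 2) ^ r * mu s :=
                  mul_nonneg (pow_nonneg hc2.le _) (mu_nonneg s)
                calc (c / 2) ^ r * (c / 2) * mu s = (c / 2) ^ r * mu s * (c / 2) := by ring
                  _ ≤ _ := mul_le_mul_of_nonneg_left (by linarith) h1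
            _ = ∑ p ∈ P, (c / 2) ^ r * mu (Function.update s j (s j * p)) := by
                rw [Finset.sum_div, Finset.mul_sum]
                refine Finset.sum_congr rfl fun p hp => ?_
                rw [mu_upd hs0 j (hPp p hp).1 (hPp p hp).2.2.1]
                have : (p : ℝ) ≠ 0 := by exact_mod_cast (hPp p hp).1.ne_zero
                field_simp
            _ ≤ _ := by
                refine Finset.sum_le_sum fun p hp => ?_
                exact hOm2 p hp
        · rintro p hp q hq hne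
          rw [Function.onFun, Finset.disjoint_left]
          intro t ht1 ht2
          replace hp : p ∈ P := Finset.mem_coe.1 hp
          replace hq : q ∈ P := Finset.mem_coe.1 hq
          obtain ⟨hpp, hp2, hps, hpI, hple, hjac, hp17⟩ := hPp p hp
          obtain ⟨hqp, hq2, hqs, hqI, hqle, hqjac, hq17⟩ := hPp q hq
          obtain ⟨h1, h2, h3, h4, h5, h6, h7, h8⟩ := hOm1 p hp t ht1
          obtain ⟨g1, g2, g3, g4, g5, g6, g7, g8⟩ := hOm1 q hq t ht2
          rw [prod_upd] at h6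
          have ht0 : ∏ j, t.1 j ≠ 0 := h2.ne_zero
          have hqd : q ∣ ∏ j, t.1 j := by
            refine dvd_trans ?_ (Finset.prod_dvd_prod_of_dvd _ _ fun i _ => g5 i)
            rw [prod_upd]
            exact Dvd.intro_left _ rfl
          apply hne
          rcases h6 q (Nat.mem_primeFactors.2 ⟨hqp, hqd, ht0⟩) with h | ⟨i, hi, h⟩
          · rcases (hqp.dvd_mul).1 h with h | h
            · exact (hqs h).elim
            · exact ((Nat.prime_dvd_prime_iff_eq hqp hpp).1 h).symm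
          · exact (II_disj hY hi h hqI).elim

end Pool.Agent.Y202.RZ
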