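import Pool.Agent.Y202.RZ.Glue

/-!
# Project RZ, part GD2: a positive proportion of the data has no class for both curves
-/

set_option autoImplicit false

namespace Pool.Agent.Y202.RZ

open Finset Pool.Agent.W262.RK Pool.Agent.W307.RT Pool.Agent.W307.RS Pool.Agent.W307.SE
  Pool.Agent.W307.FK Pool.Agent.Y667.RP Pool.Agent.Y667.RZ Pool.Agent.Y678.RP

theorem prod_Y2 {y u : ℕ} (hy : 1 ≤ y) (R : ℕ) :
    ∏ i ∈ range R, (y ^ (16 * u * 2 ^ i)) ^ 2 ≤ y ^ (32 * u * 2 ^ R) := by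
  induction R with
  | zero => simpa using Nat.one_le_pow _ _ hy
  | succ R ih =>
    rw [Finset.prod_range_succ]
    calc (∏ i ∈ range R, (y ^ (16 * u * 2 ^ i)) ^ 2) * (y ^ (16 * u * 2 ^ R)) ^ 2
        ≤ y ^ (32 * u * 2 ^ R) * (y ^ (16 * u * 2 ^ R)) ^ 2 := Nat.mul_le_mul_right _ ih
      _ = y ^ (32 * u * 2 ^ (R + 1)) := by
          rw [← pow_mul, ← pow_add]
          congr 1
          ring

theorem GD2 (hMS : Pool.Agent.Y667.RP.St_MS1) (hBC : Pool.Agent.Y667.RP.St_BC)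
    (hK : Pool.Agent.Y667.RP.St_KILL) (hV : Pool.Agent.Y667.RP.St_V0N)
    (hK17 : St_KILL17) (hV17 : St_V17N) (hNG : St_NG) : St_GD2 := by
  classical
  obtain ⟨z0, hz0⟩ := hMS
  obtain ⟨c0, hc0, hBC⟩ := hBC
  refine ⟨max z0 17, fun z hz κ hκ => ?_⟩
  obtain ⟨c1, C, hc1, y0, hy0⟩ := hz0 z (le_trans (le_max_left _ _) hz)
  have hz2 : 17 ≤ z := le_trans (le_max_right _ _) hz
  have hC : 0 < C := by
    obtain ⟨h1, h2, -⟩ := hy0 (max y0 3) (le_max_left _ _)
    have h3 := h1.trans h2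
    have h4 : (1 : ℝ) < ((max y0 3 : ℕ) : ℝ) := by
      have : 1 < max y0 3 := lt_of_lt_of_le (by norm_num) (le_max_right y0 3)
      exact_mod_cast this
    have hlog : 0 < Real.log ((max y0 3 : ℕ) : ℝ) ^ 3 := pow_pos (Real.log_pos h4) 3
    exact hc1.trans_le (le_of_mul_le_mul_right h3 hlog)
  obtain ⟨R, hR⟩ : ∃ R : ℕ, 20 / 2 ^ R * C ≤ c1 / 8 := by
    obtain ⟨R, hR⟩ := exists_pow_lt_of_lt_one (show (0 : ℝ) < c1 / (160 * C) by positivity)
      (show (1 / 2 : ℝ) < 1 by norm_num)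
    refine ⟨R, ?_⟩
    have h1 : (20 : ℝ) / 2 ^ R * C = 20 * C * (1 / 2) ^ R := by
      rw [one_div, inv_pow]
      ring
    rw [h1]
    calc 20 * C * (1 / 2) ^ R ≤ 20 * C * (c1 / (160 * C)) :=
          mul_le_mul_of_nonneg_left hR.le (by positivity)
      _ = c1 / 8 := by
          field_simp
          ring
  obtain ⟨u, hu1, hu⟩ : ∃ u : ℕ, 1 ≤ u ∧ C * Real.exp (-(u : ℝ)) ≤ c1 / 8 := by
    obtain ⟨u, hu⟩ := exists_nat_gt (8 * C / c1)
    have hupos : (0 : ℝ) < u := lt_trans (by positivity) hu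
    refine ⟨u, by exact_mod_cast hupos, ?_⟩
    rw [div_lt_iff₀ hc1] at hu
    have h1 : (u : ℝ) ≤ Real.exp u := by
      have := Real.add_one_le_exp (u : ℝ)
      linarith
    rw [Real.exp_neg, ← div_eq_mul_inv, div_le_iff₀ (Real.exp_pos _)]
    have h2 : c1 / 8 * (u : ℝ) ≤ c1 / 8 * Real.exp u :=
      mul_le_mul_of_nonneg_left h1 (by positivity)
    linarith
  set R2 : ℕ := 2 * R with hR2
  set η : ℝ := c1 / (4 * (17 * C) * (R2 + 1)) with hηdef
  have hη : 0 < η := by positivity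
  obtain ⟨Y0, hY0⟩ := hBC η hη
  have hη2 : (R2 : ℝ) * (17 * C * η) ≤ c1 / 4 := by
    have h1 : (R2 : ℝ) * (17 * C * η) = c1 / 4 * (R2 / (R2 + 1)) := by
      rw [hηdef]
      field_simp
    rw [h1]
    have h2 : (R2 : ℝ) / (R2 + 1) ≤ 1 := by
      rw [div_le_one (by positivity)]
      linarith
    have h3 : (0 : ℝ) ≤ c1 / 4 := by positivity
    nlinarith
  set c : ℝ := min c0 1 with hc
  have hcpos : 0 < c := lt_min hc0 one_pos
  have hcle : c ≤ 1 := min_le_right _ _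
  set K : ℕ := 3 * u + 32 * u * 2 ^ R2 with hKdef
  have hKpos : (0 : ℝ) < K := by
    have : 0 < K := by rw [hKdef]; positivity
    exact_mod_cast this
  refine ⟨(c / 2) ^ R2 * (c1 / 2) * (κ / (2 * K)) ^ 3, by positivity, ?_⟩
  set M : ℕ := max (max y0 z) (max Y0 4) with hM
  refine ⟨⌈((M : ℝ) + 1) ^ ((K : ℝ) / κ)⌉₊, fun X hX => ?_⟩
  have hM1 : (0 : ℝ) < (M : ℝ) + 1 := by positivity
  have hX' : ((M : ℝ) + 1) ^ ((K : ℝ) / κ) ≤ X := (Nat.le_ceil _).trans (by exact_mod_cast hX)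
  have hXpos : (0 : ℝ) < X := lt_of_lt_of_le (Real.rpow_pos_of_pos hM1 _) hX'
  set t : ℝ := (X : ℝ) ^ (κ / K) with ht
  have htM : (M : ℝ) + 1 ≤ t := by
    calc (M : ℝ) + 1 = (((M : ℝ) + 1) ^ ((K : ℝ) / κ)) ^ (κ / K) := by
          rw [← Real.rpow_mul hM1.le]
          have : (K : ℝ) / κ * (κ / K) = 1 := by field_simp
          rw [this, Real.rpow_one]
      _ ≤ t := Real.rpow_le_rpow (Real.rpow_pos_of_pos hM1 _).le hX' (by positivity)
  have hM4 : (4 : ℝ) ≤ M := by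
    have : 4 ≤ M := (le_max_right _ _).trans (le_max_right _ _)
    exact_mod_cast this
  have htpos : 0 < t := by linarith
  set y : ℕ := ⌊t⌋₊ with hy
  have hyt : (y : ℝ) ≤ t := Nat.floor_le htpos.le
  have hyt2 : t - 1 < y := by
    have := Nat.lt_floor_add_one t
    linarith
  have hMy : M ≤ y := by
    rw [hy]
    exact Nat.le_floor (by linarith)
  have hy0y : y0 ≤ y := ((le_max_left _ _).trans (le_max_left _ _)).trans hMy
  have hzy : z ≤ y := ((le_max_right _ _).trans (le_max_left _ _)).trans hMy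
  have hY0y : Y0 ≤ y := ((le_max_left _ _).trans (le_max_right _ _)).trans hMy
  have hy17 : 17 ≤ y := hz2.trans hzy
  have hy1 : 1 ≤ y := le_trans (by omega) hzy
  have hyR : (0 : ℝ) < y := by exact_mod_cast hy1
  -- the logarithm
  have hlog : κ / (2 * K) * Real.log X ≤ Real.log y := by
    have h1 : Real.log t = κ / K * Real.log X := by
      rw [ht, Real.log_rpow hXpos]
    have h2 : t / 2 ≤ y := by linarith
    have h3 : Real.log (t / 2) ≤ Real.log y := Real.log_le_log (by positivity) h2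
    rw [Real.log_div htpos.ne' (by norm_num)] at h3
    have h4 : 2 * Real.log 2 ≤ Real.log t := by
      have : (2 : ℝ) * Real.log 2 = Real.log 4 := by
        rw [show (4 : ℝ) = 2 ^ 2 by norm_num, Real.log_pow]
        norm_num
      rw [this]
      exact Real.log_le_log (by norm_num) (by linarith)
    have h5 : κ / (2 * K) * Real.log X = Real.log t / 2 := by
      rw [h1]
      field_simp
    rw [h5]
    linarith
  have hlogX : 0 ≤ Real.log X := by
    refine Real.log_nonneg ?_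
    have : 0 < X := by exact_mod_cast hXpos
    exact_mod_cast this
  have hlog3 : (κ / (2 * K)) ^ 3 * Real.log X ^ 3 ≤ Real.log y ^ 3 := by
    rw [← mul_pow]
    exact pow_le_pow_left₀ (by positivity) hlog 3
  set Y : ℕ → ℕ := fun i => y ^ (16 * u * 2 ^ i) with hY
  have hyY : ∀ i, y ≤ Y i := by
    intro i
    have h1 : 16 * u * 2 ^ i ≠ 0 := by positivity
    exact Nat.le_self_pow h1 y
  have hYY : ∀ i j, i < j → Y i ^ 2 ≤ Y j := by
    intro i j hij
    rw [hY]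
    dsimp only
    rw [← pow_mul]
    refine Nat.pow_le_pow_right hy1 ?_
    have h1 : 2 ^ (i + 1) ≤ 2 ^ j := Nat.pow_le_pow_right two_pos hij
    calc 16 * u * 2 ^ i * 2 = 16 * u * 2 ^ (i + 1) := by ring
      _ ≤ _ := Nat.mul_le_mul_left _ h1
  have hsize : ∀ s : Fin 3 → ℕ, (∀ j, (s j : ℝ) ≤ (y : ℝ) ^ (u : ℝ)) →
      ∏ j, s j ≤ y ^ (3 * u) := by
    intro s hs
    have h1 : ∀ j, s j ≤ y ^ u := by
      intro j
      have := hs j
      rw [Real.rpow_natCast] at this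
      exact_mod_cast this
    calc ∏ j, s j ≤ ∏ _j : Fin 3, y ^ u := Finset.prod_le_prod' fun j _ => h1 j
      _ = y ^ (3 * u) := by
          rw [Finset.prod_const, Finset.card_univ, Fintype.card_fin, ← pow_mul, mul_comm]
  have h4 : ∀ s : Fin 3 → ℕ, (∀ j, (s j : ℝ) ≤ (y : ℝ) ^ (u : ℝ)) →
      ∀ i, (17 * ∏ j, s j) ^ 4 ≤ Y i := by
    intro s hs i
    calc (17 * ∏ j, s j) ^ 4 ≤ (y * y ^ (3 * u)) ^ 4 :=
          Nat.pow_le_pow_left (Nat.mul_le_mul hy17 (hsize s hs)) 4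
      _ = y ^ (4 + 12 * u) := by
          rw [← pow_succ', ← pow_mul]
          congr 1
          ring
      _ ≤ y ^ (16 * u * 1) := Nat.pow_le_pow_right hy1 (by omega)
      _ ≤ Y i := by
          rw [hY]
          exact Nat.pow_le_pow_right hy1 (Nat.mul_le_mul_left _ Nat.one_le_two_pow)
  have hB : ∀ s : Fin 3 → ℕ, (∀ j, (s j : ℝ) ≤ (y : ℝ) ^ (u : ℝ)) →
      (((∏ j, s j) * ∏ i ∈ range (2 * R), Y i ^ 2 : ℕ) : ℝ) ≤ (X : ℝ) ^ κ := by
    intro s hs
    have h5 : (∏ j, s j) * ∏ i ∈ range (2 * R), Y i ^ 2 ≤ y ^ K := by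
      calc (∏ j, s j) * ∏ i ∈ range (2 * R), Y i ^ 2
          ≤ y ^ (3 * u) * y ^ (32 * u * 2 ^ R2) :=
            Nat.mul_le_mul (hsize s hs) (prod_Y2 hy1 R2)
        _ = y ^ K := by rw [← pow_add]
    calc (((∏ j, s j) * ∏ i ∈ range (2 * R), Y i ^ 2 : ℕ) : ℝ) ≤ ((y ^ K : ℕ) : ℝ) := by
          exact_mod_cast h5
      _ = (y : ℝ) ^ K := by push_cast; rfl
      _ ≤ t ^ K := pow_le_pow_left₀ hyR.le hyt K
      _ = (X : ℝ) ^ κ := by
          rw [ht, ← Real.rpow_natCast, ← Real.rpow_mul hXpos.le]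
          congr 1
          field_simp
  obtain ⟨m1, m2, m3, m4, m5⟩ := hy0 y hy0y
  have hL : 0 ≤ Real.log y ^ 3 := by
    have : 0 ≤ Real.log y := Real.log_nonneg (by exact_mod_cast hy1)
    positivity
  have hbase := base hV hV17 (c := c) (Y := Y) (u := u) (η := η) hz2 hC.le hL m1
    ((m3 u (by exact_mod_cast hu1)).trans (mul_le_mul_of_nonneg_right hu hL)) m4 m5 hR
    (fun i _ => hY0 (Y i) (hY0y.trans (hyY i)) (SB c (Y i)) fun f hf => by
      obtain ⟨g1, g2, g3, g4⟩ := SB_prop hf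
      exact ⟨g1, g2, g3, Bad_mono (min_le_left _ _) g4⟩) hη2
  have hglue := glue hK hV hK17 hV17 hNG (R := R) (u := u) hcpos hcle hz2 hzy hyY hYY h4 hB
  refine le_trans ?_ hglue
  have hcR : 0 ≤ (c / 2) ^ R2 := pow_nonneg (by linarith) R2
  calc (c / 2) ^ R2 * (c1 / 2) * (κ / (2 * K)) ^ 3 * Real.log X ^ 3
      = (c / 2) ^ R2 * (c1 / 2 * ((κ / (2 * K)) ^ 3 * Real.log X ^ 3)) := by ring
    _ ≤ (c / 2) ^ R2 * (c1 / 2 * Real.log y ^ 3) := by
        refine mul_le_mul_of_nonneg_left ?_ hcR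
        exact mul_le_mul_of_nonneg_left hlog3 (by positivity)
    _ ≤ _ := by
        refine mul_le_mul_of_nonneg_left ?_ hcR
        exact hbase

end Pool.Agent.Y202.RZ
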